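import Pool.Agent.CF.PQ
import Pool.Agent.CF.Of

set_option autoImplicit false

namespace Pool.Agent.Results.MP_ea75ba_gt.CoarseOrderable

open Pool.Agent.H37.TM Pool.Agent.H65.RM Pool.Agent.S10 Pool.Agent.S11 Pool.Agent.S14 Pool.Agent.TW Pool.Agent.PQ
open Pool.Agent.CF
open Pool.Agent.H10.CI (CoarseEmb)

/-- **Groups which are coarsely equivalent to virtually residually (amenable and left-orderable) groups, or to virtually
towers.** Let the group `G` act properly and cocompactly by simplicial automorphisms on the simplicial complex `X`
(`IsGeomS`: finite stabilizers of simplices, finitely many orbits of simplices), acyclic over the field of two elements
(`Acyc`) and over the real numbers (`AcR`). Let `H` be a subgroup of finite index in `G` such that (a) or (b) holds.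

(a) `H` is residually (amenable and left-orderable) (`RAL`: for every `x ≠ 1` in `H` there is a homomorphism from `H` to
an amenable left-orderable group which does not kill `x`). For instance let `H` be

* residually torsion-free nilpotent (`RUT.ral` in `S14/ExRT.lean`), e.g. a subgroup of a right-angled Artin group
  (`RAL.of_raag`), so that `G` may be any virtually special group, any Coxeter group, or a pure braid group;
* RFRS, that is residually finite rationally solvable (Agol; `RFRS.ral` in `S14/ExRF.lean`);
* a group whose rational derived series has trivial intersection (`RRS.ral` in `S14/ExRS.lean`), for instance residually
  poly-(torsion-free abelian);
* a free product of two groups which have (a), or their amalgamated product along a common retract (`RAL.coprod`,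
  `RAL.amalg_retract` in `TW/ExQ.lean`), so any graph product of groups which have (a); an HNN extension along the
  identity of a subgroup, or a double along a subgroup, which is closed in the topology given by the amenable
  left-orderable quotients (`RAL.hnnExt`, `RAL.double`).

(b) `H` has a finite tower (`Tower (⊤ : Subgroup H)`): a finite chain `1 = H_r ≤ ... ≤ H_1 ≤ H_0 = H` of subgroups such
that, for every `s` (`StepT H_(s-1) H_s`), the subgroup `H_s` is normal in `H_(s-1)`, and for every `x` in `H_(s-1)` which
is not in `H_s` there is a homomorphism `φ` from `H_(s-1)` to the group of unitriangular integer matrices of some size
which is trivial on `H_s` and not trivial on `x` and such that for every `t` a subgroup `V` of finite index in the whole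
group `H` exists for which `φ` is trivial modulo `2 ^ t` on the intersection of `V` and `H_(s-1)`. For instance let `H` be

* residually unitriangular, e.g. finitely generated and residually torsion-free nilpotent (`Tower.of_rut` in
  `TW/ExS.lean`: one step);
* a split extension of a group with a tower by a finitely generated group with a tower (`Tower.split` in `TW/ExS.lean`),
  so any iterated semidirect product of finitely generated residually unitriangular groups;
* an extension, split or not, of a group with a tower by a finitely generated residually unitriangular group with trivial
  centre (`Tower.ext_rut_top` in `TW/PX.lean`), for instance a nonabelian free group or the group of a closed surface of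
  higher genus; or by any finitely generated group with a tower whose profinite completion has trivial centre
  (`Tower.ext_center` in `TW/ExC.lean`). The class of the groups with a subgroup of finite index which has a tower is
  closed under extensions with finitely generated kernels which have a residually unitriangular subgroup of finite
  index and infinite nontrivial conjugacy classes (`Tower.ext_vrut` in `TW/PVE.lean`);
* an HNN extension of a group `A` with a tower along the identity of a subgroup `C` which is closed in the profinite
  topology of `A`, or a double of `A` along `C` (`Tower.hnnExt` in `TW/ExH.lean`, `Tower.double` in `TW/ExP.lean`); a free
  product of two groups with towers, or their amalgamated product along a common retract (`Tower.coprod`,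
  `Tower.amalg_retract` in `TW/ExP.lean`), so any graph product of groups with towers; all direct products and subgroups of
  groups with towers (`Tower.prod`, `Tower.of_inj` in `TW/ExH.lean`).

In general no subgroup of finite index in a group with a tower has (a). For instance let `H` be the semidirect product of
`ℤ²` and a nonabelian free group `F` of matrices in `SL_2(ℤ)`. The action of `F` is irreducible over `ℚ`, so a torsion-free
quotient of `H` in which `ℤ²` is not killed contains `ℤ²`, acts on it through `F`, and is not amenable; the same argument
applies to the subgroups of finite index. The groups which contain `H` do not have (a) either, for instance the semidirect
product of the free product of `ℤ²` and `ℤ` and `F` (which fixes the factor `ℤ`); its second `ℓ²`-Betti number is not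
zero.

Let `Q` be any group which is coarsely equivalent to `G` (`CoarseEq f`, `f : G → Q` is a map, in general not a
homomorphism: for every `a` the set of the `f(g)⁻¹ f(g a)` is finite, every `x` is equal to `f(g)⁻¹ f(g a)`, for some `g`,
for finitely many `a` only (`CoarseEmb`), and `Q = f(G) F` for a finite set `F`; for finitely generated groups these are the
quasi-isometries with respect to the word metrics). For instance let `Q = G`, or let `Q` be commensurable to `G`
(`coarseEq_subgroup` in `PQ/ExG.lean`), or let `G` and `Q` act properly and cocompactly on the same connected simplicial
complex (`coarseEq_of_geom` in `PQ/ExG.lean`); so `Q` may be any uniform lattice of a regular right-angled building or of a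
product of regular trees, which is in general not residually finite and not virtually torsion-free. Let `Q` act properly
and cocompactly on the simplicial complex `Y`, acyclic over the real numbers; the reduced `ℓ²`-homology of `Y` is then that
of `Q`.

Suppose that `Q` embeds coarsely in a group `L` (`CoarseEmb e`, for instance `L = Q` and `e = id`, or `L` is a subgroup of
finite index in `Q`), that `L` acts properly (`PAct`) on a simplicial complex `M` with a subcomplex `B`, and that

* either `M` is a homology manifold of dimension `n` over the field of two elements with boundary `B` (`Mfd`; the
  boundary may be empty, `M` may be noncompact, the action need not be cocompact) which is acyclic over this field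
  (`AcycLt`), for instance a triangulated contractible manifold with or without boundary;
* or `M` is locally finite, of any dimension, the cohomology with compact supports of `(M, B)` over the field of two
  elements vanishes in the degrees less than `n`, and some nonzero class of the degree `n` has a finite orbit under the
  group `L` (`CohF`), for instance the cohomology in the degree `n` is of dimension one (`CohF.of_cdual` in `CF/Of.lean`).

The second case contains the following situations. (1) A torsion-free group `L` acts properly and cocompactly on a
contractible topological manifold `N` with or without boundary: the compact manifold `N / L` relative to its boundary has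
the homotopy type of a finite simplicial pair, and `(M, B)` is its universal cover. (2) Any group `L` acts properly and
cocompactly on a contractible topological manifold `N` of dimension `n` without boundary, and on a contractible simplicial
complex `M`: let `B` be empty; the cohomology with compact supports of `M` is that of `N` since it is a coarse invariant of
the uniformly contractible spaces. No triangulation of `N` and no torsion-free subgroup is needed. (3) A group `L` acts
properly on a manifold `M` of dimension `n + k` with boundary `B`, not necessarily acyclic, whose homology over the field of
two elements vanishes in the degrees above `k` and has in the degree `k` a nonzero class with finite orbit, for instance a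
manifold with the homotopy type of a sphere of dimension `k` (`CohF.of_mfd_hom` in `CF/MC.lean`, `HomF.of_fin` in
`CF/MD.lean`, Lefschetz duality).

Then the reduced `ℓ²`-homology of `Y`, that is, of the group `Q`, vanishes in all degrees `i > n / 2`.

The triangulation is not essential (this remark is not formalized here). Let `L` act properly on any contractible
topological manifold of dimension `n` with or without boundary, let `N` be its interior. The telescope of the nerves of a
sequence of invariant open covers of `N` relative to the first nerve satisfies `CohF` with `n + 1` in place of `n`. The same
construction for the action of `L × L` on `N × N` and the theorem for `G × G` (`RAL.prod`, `Tower.prod`), `Q × Q`, `L × L`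
and `2 n + 1` show that the reduced `ℓ²`-homology of `Y × Y` vanishes in the degree `2 i` if `2 i > n`; so that of `Y`
vanishes in the degree `i` by the Künneth formula. -/
theorem result {V W U G Q L : Type} [DecidableEq V] [DecidableEq W] [DecidableEq U] [Group G] [MulAction G V] [Group Q]
    [MulAction Q W] [Group L] [MulAction L U] {X : Set (Finset V)} (hX : Acyc X) (hXR : AcR X) (hG : IsGeomS G X)
    (H : Subgroup G) (hH : H.FiniteIndex) (hU : RAL H ∨ Tower (⊤ : Subgroup H)) {Y : Set (Finset W)} (hY : AcR Y)
    (hQ : IsGeomS Q Y) {f : G → Q} (hf : CoarseEq f) {e : Q → L} (he : CoarseEmb e) {M B : Set (Finset U)} {n : ℕ}
    (hM : (Mfd M B n ∧ AcycLt M (n + 1)) ∨ CohF L M B n) (hA : PAct L M B) (i : ℕ) (hn : n < 2 * i) : L2ZeroS Y i :=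
  Pool.Agent.CF.pq_main hX hXR hG H hH hU hY hQ hf he
    (hM.elim (fun h => CohF.of_manOrDual (Or.inl h) hA) fun h => h) hA i hn

end Pool.Agent.Results.MP_ea75ba_gt.CoarseOrderable
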