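import Pool.Agent.H71.TSG.M82
import Pool.Agent.H74.IT.Main

set_option autoImplicit false

namespace Pool.Agent.Results.MP_ea75ba_gt.SingerArtin

open Pool.Agent.H37.TM Pool.Agent.H65.RM Pool.Agent.H93.AA Pool.Agent.H4.FC H42.NU
  Pool.Agent.H65.AB
open Pool.Agent.H74.IT (CohF exists_inter_listC)
open Pool.Agent.H73.LK (sub)
open Pool.Agent.H10.CI (CoarseEmb)

/-- **The action dimension conjecture for all Artin groups, all graph products of groups with at least three
elements which are finite or `ℓ²`-acyclic (for example amenable), and their mixtures.** Let `M` be an arbitrary
Coxeter matrix with finite index set `S` (zero stands for infinity), let `F` be a set of generators all whose labels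
are two or infinity, and let `Γ v` be a group with at least three elements for every `v ∈ F`. Let `A = AG M F Γ` be the Artin group of `M` in which every generator `v ∈ F` is
replaced by the group `Γ v` (for `F = ∅` the Artin group `BG M`, for `F = S` the graph product of the groups `Γ v`): the
quotient of the free product of `BG M` and of the groups `Γ v` in which the generators `v ∈ F` (and the groups `Γ v`
with `v ∉ F`) are trivial, and the generator `s` and the group `Γ u` commute with the group `Γ v` if the label of `s`
(of `u`) and `v` is two.

Let `P` be a subgroup of `A` which contains the groups `Γ v`, `v ∈ F`, and a positive power of the element `Δ_T = dlt M T`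
for every spherical set `T` of generators outside `F` (for example `P = A`), and let `f` be a coarse embedding of `P`
into a group `Λ` (for example `Λ = P`, or a subgroup of finite index of `A`, or a group quasi-isometric to `A`). Let
`Λ` act simplicially and properly (`PAct`: only finitely many elements map a vertex to another one) on a simplicial
complex `K` with a subcomplex `B`; the action need not be cocompact. Suppose that

* either `K` is a homology manifold of dimension `n` over the field of two elements with boundary `B` (`Mfd`; the
  boundary may be empty), and `K` is acyclic over the field of two elements (`AcycLt` in the degrees up to `n`), for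
  example a triangulated contractible `n`-manifold with or without boundary;
* or (`CohF`) `K` is locally finite, of any dimension, the cohomology with compact supports of `(K, B)` over the field
  of two elements vanishes in the degrees less than `n`, and some nonzero class `[z]` of the degree `n` has a finite orbit
  under `Λ`, for example if this cohomology has dimension one in the degree `n`; no fundamental cycle is given. Every
  contractible topological manifold `N` of dimension `n` without boundary on which `Λ` acts properly and cocompactly
  gives such a pair: `B` is empty and `K` is any acyclic complex on which `Λ` acts properly and cocompactly, as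
  `H_c^*(K) = H_c^*(N)` (coarse invariance). A contractible topological manifold `N` with boundary on which a torsion
  free group `Λ` acts properly gives such a pair, too: the manifold `N / Λ` relative to its boundary has the proper
  homotopy type of a locally finite simplicial pair (Kirby and Siebenmann), `(K, B)` is its universal cover. If `K` is a
  homology manifold of dimension `n + k` with boundary `B`, its homology modulo two vanishes above the degree `k` and
  some nonzero class of the degree `k` has a finite orbit (for example if `K` has the homotopy type of a finite
  complex), then `(K, B)` is such a pair by Lefschetz duality.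

Let `i > n / 2`. Then:

(1) the reduced homology modulo two of every full subcomplex of the nerve of the Coxeter group vanishes in degree
`i - 1`;

(2) the reduced `ℓ²`-homology of the complex of `A` vanishes in degree `i`. This is the Davis complex in the directions
of `F` and the universal cover of the Salvetti complex in the other directions; the group `A` acts cocompactly, and
cells with an infinite stabilizer carry no `ℓ²`-chains. The complex is contractible if the Artin group of the
generators outside `F` satisfies the `K(π,1)` conjecture; the reduced `ℓ²`-homology is then the one of `A` if the groups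
`Γ v` are finite, and it is zero if and only if the `ℓ²`-Betti number of `A` is zero if each group `Γ v` is finite or
has vanishing `ℓ²`-Betti numbers, for example is infinite amenable (then the cells with infinite stabilizers do not
contribute to the `ℓ²`-Betti numbers, Lück). -/
theorem result {S Λ U : Type} [Fintype S] [DecidableEq S] [Group Λ] [DecidableEq U]
    (M : CoxeterMatrix S) (F : Finset S) (hF : ∀ v ∈ F, ∀ s, s ≠ v → M v s = 2 ∨ M v s = 0)
    (Γ : S → Type) [∀ v, Group (Γ v)] (h3 : ∀ v ∈ F, ∃ x y : Γ v, x ≠ 1 ∧ y ≠ 1 ∧ x ≠ y)
    (P : Subgroup (AG M F Γ)) (hP1 : ∀ v ∈ F, ∀ a : Γ v, io M F v a ∈ P)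
    (hP2 : ∀ T : Finset S, Sph M T → Disjoint T F → ∃ k : ℕ, 0 < k ∧ th M F Γ (dlt M T) ^ k ∈ P)
    (f : P → Λ) (hf : CoarseEmb f) [MulAction Λ U] {K B : Set (Finset U)} {n : ℕ}
    (hM : (Mfd K B n ∧ AcycLt K (n + 1)) ∨ CohF Λ K B n) (hA : PAct Λ K B) (i : ℕ) (hi : n < 2 * i) :
    (∀ Y : Finset S, HL (sub M Y) i) ∧ L2ZeroAG M F Γ i := by
  obtain ⟨k, rfl⟩ : ∃ k, i = k + 1 := ⟨i - 1, by omega⟩
  have hX : Mix M F := ⟨hF⟩
  have hE := Pool.Agent.H93.AB.cem_of_sub hX P hP1 hP2 hf
  obtain ⟨H, hI⟩ : ∃ H : List Λ → List Λ → ZMod 2, Pool.Agent.H84.RX.InterL Λ n H := by
    rcases hM with h | h
    · exact Pool.Agent.H45.DA.exists_inter_listD (Or.inl h) hA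
    · exact exists_inter_listC h hA
  have hH : ∀ Y : Finset S, HL (sub M Y) (k + 1) :=
    Pool.Agent.H45.DA.hl_of_cemL hX h3 hE hI (by omega)
  exact ⟨hH, l2zeroAG_of_hl hX fun T _ _ => hH _⟩

end Pool.Agent.Results.MP_ea75ba_gt.SingerArtin
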