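import Pool.Agent.H71.TSG.M72
import Pool.Agent.H74.IT.Main

set_option autoImplicit false

namespace Pool.Agent.Results.MP_ea75ba_gt.SingerBuildings

open Pool.Agent.H4.FC Pool.Agent.H78.RC Pool.Agent.H97.BLD Pool.Agent.H4.BD
  Pool.Agent.H37.TM Pool.Agent.H65.RM
open Pool.Agent.H74.IT (CohF exists_inter_listC)
open Pool.Agent.H10.CI (CoarseEmb)

/-- **The action dimension conjecture for uniform lattices of buildings.** Let `M` be an arbitrary Coxeter matrix
with finite index set `S` (zero stands for infinity) and `W = M.Group` its Coxeter group. Let `Δ` be the set of
chambers of a building of type `M` with Weyl distance `δ`, and let the group `P` act on `Δ` preserving `δ`, with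
finitely many orbits and finite stabilizers (a uniform lattice of the building). Suppose that

* the building is thick and all panels are finite; the set `{d | δ c d = M.simple s}` is the panel of type `s` of the
  chamber `c` without `c`;
* for every `s`, all panels of type `s` have an even number of chambers, or `s` is right-angled: all `M s t`,
  `t ≠ s`, are `2` or infinite. Panels of the same type need not have the same number of chambers.

For example all locally finite thick right-angled buildings and all buildings of Kac-Moody groups over finite fields
of odd order (panels with `q + 1` chambers) satisfy these conditions.

Let `f` be a coarse embedding of `P` into a group `Λ` (for example `Λ = P` and the identity, or a quasi-isometry). Let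
`Λ` act simplicially and properly (`PAct`: only finitely many elements map a vertex to another one) on a simplicial
complex `K` with a subcomplex `B`; the action need not be cocompact. Suppose that

* either `K` is a homology manifold of dimension `n` over the field of two elements with boundary `B` (`Mfd`; the
  boundary may be empty), and `K` is acyclic over the field of two elements (`AcycLt` in the degrees up to `n`), for
  example a triangulated contractible `n`-manifold with or without boundary;
* or (`CohF`) `K` is locally finite, of any dimension, the cohomology with compact supports of `(K, B)` over the field
  of two elements vanishes in the degrees less than `n`, and some nonzero class `[z]` of the degree `n` has a finite orbit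
  under `Λ`, for example if this cohomology has dimension one in the degree `n`; no fundamental cycle is given. Every
  contractible topological manifold `N` of dimension `n` without boundary on which `Λ` acts properly and cocompactly
  gives such a pair: `B` is empty and `K` is any acyclic complex on which `Λ` acts properly and cocompactly, as
  `H_c^*(K) = H_c^*(N)` (coarse invariance). A contractible topological manifold `N` with boundary on which a torsion
  free group `Λ` acts properly gives such a pair, too: the manifold `N / Λ` relative to its boundary has the proper
  homotopy type of a locally finite simplicial pair (Kirby and Siebenmann), `(K, B)` is its universal cover. If `K` is a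
  homology manifold of dimension `n + k` with boundary `B`, its homology modulo two vanishes above the degree `k` and
  some nonzero class of the degree `k` has a finite orbit (for example if `K` has the homotopy type of a finite
  complex), then `(K, B)` is such a pair by Lefschetz duality.

Then for all `i > n / 2` the reduced `ℓ²`-homology of the Davis realization of the building vanishes in degree `i`.
The Davis realization is contractible with a proper and cocompact action of `P`, so this is the reduced `ℓ²`-homology
of `P`. -/
theorem result {S : Type} [Fintype S] [DecidableEq S] (M : CoxeterMatrix S) {Δ : Type}
    {δ : Δ → Δ → M.Group} (hδ : IsBuilding M δ)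
    (hfin : ∀ s c, {d | δ c d = M.simple s}.Finite)
    (hth : ∀ s c, 2 ≤ {d | δ c d = M.simple s}.ncard)
    (hpar : ∀ s, (∀ c, Odd {d | δ c d = M.simple s}.ncard) ∨
      ∀ t, t ≠ s → M s t = 2 ∨ M s t = 0)
    {P Λ U : Type} [Group P] [MulAction P Δ] (hP : GAct P M δ)
    [Group Λ] {f : P → Λ} (hf : CoarseEmb f) [DecidableEq U] [MulAction Λ U]
    {K B : Set (Finset U)} {n : ℕ} (hM : (Mfd K B n ∧ AcycLt K (n + 1)) ∨ CohF Λ K B n) (hA : PAct Λ K B) (i : ℕ)
    (hi : n < 2 * i) : L2ZeroB M δ i := by
  obtain ⟨H, hH⟩ : ∃ H : List Λ → List Λ → ZMod 2, Pool.Agent.H84.RX.InterL Λ n H := by
    rcases hM with h | h
    · exact Pool.Agent.H45.DA.exists_inter_listD (Or.inl h) hA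
    · exact exists_inter_listC h hA
  exact Pool.Agent.H45.DA.bld_singerL M Δ δ P Λ n hδ hfin hth hpar hP f hf hH i hi

end Pool.Agent.Results.MP_ea75ba_gt.SingerBuildings
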