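import Pool.Agent.H71.TSG.M65

set_option autoImplicit false

namespace Pool.Agent.Results.MP_ea75ba_gt.SingerLinks

open Pool.Agent.H19.Cub Pool.Agent.H19.LI
open Pool.Agent.H73.LK (transfer_cat0)
open Pool.Agent.H3.SL (Vanishing)
open Pool.Agent.H4.FC (L2HomologyZero)
open Pool.Agent.H4.Singer (racg)

/-- **Singer's conjecture for CAT(0) cubical manifolds, with or without boundary, and for right-angled Coxeter
groups which act on manifolds.** `Vanishing M i` is the least class of labelled finite flag complexes `L` (Coxeter
matrices `M`) and degrees `i` which contains

* if all labels are two: the full subcomplexes `L` of flag homology balls and spheres of dimension `n - 1 < 2 i - 1`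
  over the field with two elements; the complexes `L` such that a subgroup of finite index of the right-angled
  Coxeter group acts properly and simplicially on an acyclic homology manifold of dimension `n < 2 i`, with or
  without boundary, over this field (it is enough that the reduced homology of the manifold vanishes in the degrees
  up to the dimension of `L`), or on a duality pair of dimension `n` over this field (`ManOrDual`; for instance a
  locally finite complex with a subcomplex which is the universal covering of a finite Poincaré pair);
* if all cliques generate finite groups, the labels being arbitrary otherwise: the complexes of dimension at most
  `k < i` with vanishing van Kampen obstruction (modulo two) to embedding in `ℝ^{2k}`, in particular the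
  subcomplexes, full or not, of homology `2 k`-spheres over the field with two elements;
* the finite groups for `i > 0`, the infinite groups for `i = 0`;

and which is closed under

* gluing along full subcomplexes and its inverse, and joins with labels two between the factors;
* if all cliques generate finite groups: Poincaré duality (homology spheres), and passing from the full
  subcomplexes of the links in codimension `m` in the degrees `≥ i - m` to the complex in degree `i`.

For all Coxeter groups whose matrix is in the class for `i` the reduced `ℓ²`-homology of the Davis complex vanishes
in degree `i`. Let the group `Γ` act properly and cocompactly on the CAT(0) cube complex `C` (the labels of the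
edges are the hyperplanes; the link of a vertex `x` is the flag complex of the graph `lk C x` of the labels at
`x`). If the links of all vertices, with all labels two, are in the class for `i`, or only satisfy its conclusion,
then the reduced `ℓ²`-homology of `C` vanishes in degree `i`. If `C` is a manifold of dimension `n`, with or without
boundary, then all vertex links are flag homology balls or spheres of dimension `n - 1`: so this holds for all
`i > n / 2`. -/
theorem result (i : ℕ) :
    (∀ (S : Type) [DecidableEq S] [Fintype S] (M : CoxeterMatrix S), Vanishing M i →
      L2HomologyZero M i) ∧
    (∀ (V X Γ : Type) [DecidableEq V] [Countable V] [Group Γ] [MulAction Γ V] [MulAction Γ X]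
      (C : CubeComplex V X), IsCAT0 C → IsGeom Γ C →
      (∀ x, Vanishing (racg (lk C x)) i ∨ L2HomologyZero (racg (lk C x)) i) → L2Zero C i) :=
  ⟨fun _ _ _ _ h => h.l2, fun _ _ _ _ _ _ _ _ _ hC hΓ h =>
    transfer_cat0 hC hΓ fun x => (h x).elim (fun h => h.l2) id⟩

end Pool.Agent.Results.MP_ea75ba_gt.SingerLinks
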